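import Pool.Agent.H95.NV.Targets3
import Pool.Agent.H31.CN.T6

/-!
# (PRR) real characters and entire L-functions
-/

set_option autoImplicit false

open MeasureTheory Set Filter NumberField
open scoped Real nonZeroDivisors

namespace Pool.Agent.H81.NV

open Pool.Agent.H95.NV NumberField
open Pool.Agent.H31.CN (IsLf NV Mt)
open Pool.Agent.H89.NV (TrK prp)

theorem prr_nve (hENT : Pool.Agent.H31.CN.T_ENT) (K : Type) [Field K] [NumberField K]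
    (hK : 2 ≤ Module.finrank ℚ K) (ψ : ClassGroup (𝓞 K) →* ℂˣ) (h1 : ψ ≠ 1) (h : NV K ψ) :
    NVE K ψ := by
  obtain ⟨F, hF, hF0⟩ := h
  obtain ⟨Λ, hΛ1, hΛ2, hΛ3⟩ := hENT K hK ψ h1 F hF
  refine ⟨Λ, hΛ1, fun s hs => ?_, ?_⟩
  · rw [hΛ2 s hs]
    exact hF.2 s hs
  · rw [hΛ3]
    exact hF0

theorem pf_PRR (hCHC : T_CHC) (hENT : Pool.Agent.H31.CN.T_ENT) : T_PRR := by
  intro k K _ _ _ _ _ _
  have hfin : Finite (ClassGroup (𝓞 K) →* ℂˣ) := (hCHC k K).2.1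
  have hK : 2 ≤ Module.finrank ℚ K := by
    have h1 := Module.finrank_mul_finrank ℚ k K
    have h2 : Module.finrank k K = 2 := Algebra.IsQuadraticExtension.finrank_eq_two k K
    have h3 : 0 < Module.finrank ℚ k := Module.finrank_pos
    rw [h2] at h1
    omega
  have hcard : Nat.card {ψ : ClassGroup (𝓞 K) →* ℂˣ // TrK k K ψ ∧ NV K ψ} ≤
      Nat.card {ψ : ClassGroup (𝓞 K) →* ℂˣ // TrK k K ψ ∧ ψ * ψ = 1} +
      Nat.card {ψ : ClassGroup (𝓞 K) →* ℂˣ // TrK k K ψ ∧ ψ * ψ ≠ 1 ∧ NVE K ψ} := by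
    have hsub : {ψ : ClassGroup (𝓞 K) →* ℂˣ | TrK k K ψ ∧ NV K ψ} ⊆
        {ψ : ClassGroup (𝓞 K) →* ℂˣ | TrK k K ψ ∧ ψ * ψ = 1} ∪
        {ψ : ClassGroup (𝓞 K) →* ℂˣ | TrK k K ψ ∧ ψ * ψ ≠ 1 ∧ NVE K ψ} := by
      rintro ψ ⟨h1, h2⟩
      by_cases h3 : ψ * ψ = 1
      · exact Or.inl ⟨h1, h3⟩
      · refine Or.inr ⟨h1, h3, prr_nve hENT K hK ψ ?_ h2⟩
        rintro rfl
        exact h3 (mul_one (1 : ClassGroup (𝓞 K) →* ℂˣ))
    exact (Set.ncard_le_ncard hsub (Set.toFinite _)).trans (Set.ncard_union_le _ _)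
  have hc : (Nat.card {ψ : ClassGroup (𝓞 K) →* ℂˣ // TrK k K ψ ∧ NV K ψ} : ℝ) ≤
      Nat.card {ψ : ClassGroup (𝓞 K) →* ℂˣ // TrK k K ψ ∧ ψ * ψ = 1} +
      Nat.card {ψ : ClassGroup (𝓞 K) →* ℂˣ // TrK k K ψ ∧ ψ * ψ ≠ 1 ∧ NVE K ψ} := by
    exact_mod_cast hcard
  show prp k K - rcp k K ≤ prN k K
  have h4 : prp k K ≤ rcp k K + prN k K := by
    unfold prp rcp prN
    rw [← add_div]
    exact div_le_div_of_nonneg_right hc (Nat.cast_nonneg _)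
  linarith

end Pool.Agent.H81.NV
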